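import Mathlib
import Pool.Agent.Work.MP_d9fde0_an.EMain

/-!
# The eigenvalue problem for the `k`-Hessian operator: `-log(-u)` need not be convex

For `n = 4` and `k = 3` there is a bounded convex domain with smooth boundary and positive principal
curvatures on which the admissible eigenfunction `u` of `S_3(D²u) = Λ (-u)³`, `u = 0` on the
boundary, has `-log(-u)` not convex.
-/

namespace Pool.Agent.Results.MP_d9fde0_an.LogConvexityFails

open Pool.Agent.Work.MP_d9fde0_an

theorem result : ∃ Ω : Set (EuclideanSpace ℝ (Fin 4)), IsSmoothConvexDomain Ω ∧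
    ∀ (Λ : ℝ) (u : EuclideanSpace ℝ (Fin 4) → ℝ), IsSolutionE 3 Λ Ω u →
      ¬ ConvexOn ℝ Ω (fun x => -Real.log (-u x)) := mainE

end Pool.Agent.Results.MP_d9fde0_an.LogConvexityFails
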