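import Mathlib
import Pool.Agent.Work.MP_d9fde0_an.Main

/-!
# The torsion problem for the `k`-Hessian operator: `-√(-u)` need not be convex

For `n = 7` and `k = 6` there is a bounded convex domain with smooth boundary and positive principal
curvatures on which the admissible solution `u` of `S_6(D²u) = 1`, `u = 0` on the boundary, has
`-√(-u)` not convex.
-/

namespace Pool.Agent.Results.MP_d9fde0_an.SqrtConvexityFails

open Pool.Agent.Work.MP_d9fde0_an

theorem result : ∃ Ω : Set (EuclideanSpace ℝ (Fin 7)), IsSmoothConvexDomain Ω ∧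
    ∀ u : EuclideanSpace ℝ (Fin 7) → ℝ, IsSolutionT 6 Ω u →
      ¬ ConvexOn ℝ Ω (fun x => -√(-u x)) := main

end Pool.Agent.Results.MP_d9fde0_an.SqrtConvexityFails
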